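import Mathlib
import Pool.Agent.H74.EV.Fac
import Pool.Agent.H74.EV.Lll

/-!
In a Hamiltonian graph of order `n` with all degrees between `d` and `D`, `d ≥ 330 log D`, there is
a 2-factor with an even number of cycles, at most `330 n / d`.
-/

namespace Pool.Agent.Results.MP_59e2db_co.EvenNumber

open SimpleGraph Pool.Agent.H74.EV

/-- `G` has a 2-factor (a spanning subgraph in which every vertex has degree 2) with exactly `k`
cycles, that is with exactly `k` connected components. -/
def HasTwoFactor {V : Type} (G : SimpleGraph V) (k : ℕ) : Prop :=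
  ∃ F : SimpleGraph V, F ≤ G ∧ (∀ v, (F.neighborSet v).ncard = 2) ∧
    Nat.card F.ConnectedComponent = k

/-- First consequences of `d ≥ 330 log D`. -/
theorem large {d D : ℕ} (hD : 2 ≤ D) (hdD : d ≤ D) (hd : 330 * Real.log D ≤ d) :
    1800 ≤ d ∧ 8 * Real.log 2 ≤ Real.log D := by
  have hlog2 : 0.6931471803 < Real.log 2 := Real.log_two_gt_d9
  have hD' : (2 : ℝ) ≤ D := by exact_mod_cast hD
  have h1 : Real.log 2 ≤ Real.log D := Real.log_le_log (by norm_num) hD'
  have h2 : (200 : ℝ) < d := by linarith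
  have h3 : 128 ≤ D := by
    have : 200 < d := by exact_mod_cast h2
    omega
  have h4 : 7 * Real.log 2 ≤ Real.log D := by
    have h5 : Real.log ((2 : ℝ) ^ 7) ≤ Real.log D := by
      apply Real.log_le_log (by norm_num)
      have : (128 : ℝ) ≤ D := by exact_mod_cast h3
      linarith
    rw [Real.log_pow] at h5
    push_cast at h5
    exact h5
  have h6 : (1600 : ℝ) < d := by linarith
  have h7 : 256 ≤ D := by
    have : 1600 < d := by exact_mod_cast h6
    omega
  have h8 : 8 * Real.log 2 ≤ Real.log D := by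
    have h5 : Real.log ((2 : ℝ) ^ 8) ≤ Real.log D := by
      apply Real.log_le_log (by norm_num)
      have : (256 : ℝ) ≤ D := by exact_mod_cast h7
      linarith
    rw [Real.log_pow] at h5
    push_cast at h5
    exact h5
  refine ⟨?_, h8⟩
  have h9 : (1800 : ℝ) ≤ d := by linarith
  exact_mod_cast h9

/-- The numerical condition of the local lemma. -/
theorem numbers {d D : ℕ} (hD : 2 ≤ D) (hdD : d ≤ D) (hd : 330 * Real.log D ≤ d) :
    72 * ((d / 3 : ℕ) : ℝ) * D * (2 ^ (d / 160) * (26 / 27 : ℝ) ^ (d / 3)) ≤ 1 := by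
  obtain ⟨hd1, h8⟩ := large hD hdD hd
  have hd2 : (1800 : ℝ) ≤ d := by exact_mod_cast hd1
  have hD0 : (0 : ℝ) < D := by
    have : 0 < D := by omega
    exact_mod_cast this
  have hlog2 : Real.log 2 < 0.6931471808 := Real.log_two_lt_d9
  have hlog2' : 0.6931471803 < Real.log 2 := Real.log_two_gt_d9
  have hr : ((d / 160 : ℕ) : ℝ) ≤ (d : ℝ) / 160 := by
    have := @Nat.cast_div_le ℝ _ _ _ d 160
    simpa using this
  have ht : ((d : ℝ) - 2) / 3 ≤ ((d / 3 : ℕ) : ℝ) := by
    have h3 : d ≤ 3 * (d / 3) + 2 := by omega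
    have h4 : (d : ℝ) ≤ 3 * ((d / 3 : ℕ) : ℝ) + 2 := by exact_mod_cast h3
    linarith
  have ht' : 3 * ((d / 3 : ℕ) : ℝ) ≤ D := by
    have h3 : 3 * (d / 3) ≤ D := by omega
    exact_mod_cast h3
  have hrl : ((d / 160 : ℕ) : ℝ) * Real.log 2 ≤ (d : ℝ) / 160 * 0.6931471808 :=
    mul_le_mul hr hlog2.le (by linarith) (by positivity)
  have h24 : Real.log 24 ≤ 5 * Real.log 2 := by
    have h5 : Real.log 24 ≤ Real.log ((2 : ℝ) ^ 5) := Real.log_le_log (by norm_num) (by norm_num)
    rw [Real.log_pow] at h5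
    push_cast at h5
    exact h5
  have hkey : Real.log 24 + 2 * Real.log D + ((d / 160 : ℕ) : ℝ) * Real.log 2 -
      ((d / 3 : ℕ) : ℝ) / 27 ≤ 0 := by linarith
  have h1 : (26 / 27 : ℝ) ^ (d / 3) ≤ Real.exp (-(((d / 3 : ℕ) : ℝ) / 27)) := by
    have h2 : (26 / 27 : ℝ) ≤ Real.exp (-(1 / 27)) := by
      have := Real.one_sub_le_exp_neg (1 / 27 : ℝ)
      linarith
    calc (26 / 27 : ℝ) ^ (d / 3) ≤ (Real.exp (-(1 / 27))) ^ (d / 3) :=
          pow_le_pow_left₀ (by norm_num) h2 _
      _ = Real.exp (-(((d / 3 : ℕ) : ℝ) / 27)) := by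
          rw [← Real.exp_nat_mul]
          congr 1
          ring
  have h3 : (2 : ℝ) ^ (d / 160) = Real.exp (((d / 160 : ℕ) : ℝ) * Real.log 2) := by
    rw [Real.exp_nat_mul, Real.exp_log (by norm_num)]
  have h4 : 72 * ((d / 3 : ℕ) : ℝ) * D ≤ 24 * (D : ℝ) ^ 2 := by nlinarith
  calc 72 * ((d / 3 : ℕ) : ℝ) * D * (2 ^ (d / 160) * (26 / 27 : ℝ) ^ (d / 3))
      ≤ 24 * (D : ℝ) ^ 2 * (Real.exp (((d / 160 : ℕ) : ℝ) * Real.log 2) *
          Real.exp (-(((d / 3 : ℕ) : ℝ) / 27))) := by
        rw [h3]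
        exact mul_le_mul h4 (mul_le_mul_of_nonneg_left h1 (Real.exp_pos _).le) (by positivity)
          (by positivity)
    _ = Real.exp (Real.log 24 + 2 * Real.log D + ((d / 160 : ℕ) : ℝ) * Real.log 2 -
          ((d / 3 : ℕ) : ℝ) / 27) := by
        have h5 : Real.exp (2 * Real.log D) = (D : ℝ) ^ 2 := by
          rw [two_mul, Real.exp_add, Real.exp_log hD0]
          ring
        rw [Real.exp_sub, Real.exp_add, Real.exp_add, Real.exp_log (by norm_num), h5,
          Real.exp_neg]
        ring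
    _ ≤ 1 := by
        rw [Real.exp_le_one_iff]
        exact hkey

/-- Let `G` be a Hamiltonian graph on `n ≥ 3` vertices with all degrees between `d` and `D`, where
`d ≥ 330 log D`. Then `G` has a 2-factor whose number `k` of cycles is even, at least two and at
most `330 n / d`. -/
theorem result (n : ℕ) (hn : 3 ≤ n) (G : SimpleGraph (Fin n)) (hG : G.IsHamiltonian)
    (d D : ℕ) (hdeg : ∀ v, d ≤ (G.neighborSet v).ncard ∧ (G.neighborSet v).ncard ≤ D)
    (hd : 330 * Real.log D ≤ d) :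
    ∃ k : ℕ, 2 ≤ k ∧ Even k ∧ k * d ≤ 330 * n ∧ HasTwoFactor G k := by
  classical
  have : NeZero n := ⟨by omega⟩
  obtain ⟨v, hv⟩ := Pool.Agent.H47.TCF.exists_cyclic hn G hG
  let N : Fin n → Finset (Fin n) := fun x => Finset.univ.filter (fun i => G.Adj (v x) (v i))
  have hNc : ∀ x, (N x).card = (G.neighborSet (v x)).ncard := by
    intro x
    have h1 : G.neighborSet (v x) = ((N x).image v : Finset (Fin n)) := by
      ext y
      simp only [N, Finset.coe_image, Finset.coe_filter, Finset.mem_univ, true_and,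
        Set.mem_image, Set.mem_ofPred_eq, SimpleGraph.mem_neighborSet]
      constructor
      · intro h
        exact ⟨v.symm y, by rwa [Equiv.apply_symm_apply], Equiv.apply_symm_apply _ _⟩
      · rintro ⟨i, hi, rfl⟩
        exact hi
    rw [h1, Set.ncard_coe_finset, Finset.card_image_of_injective _ v.injective]
  have hN : ∀ x, d ≤ (N x).card := fun x => by rw [hNc]; exact (hdeg _).1
  have hND : ∀ x, (N x).card ≤ D := fun x => by rw [hNc]; exact (hdeg _).2
  have hdD : d ≤ D := (hN 0).trans (hND 0)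
  have hdn : d < n := by
    have h1 : N 0 ⊆ Finset.univ.erase 0 := by
      intro i hi
      rw [Finset.mem_erase]
      refine ⟨?_, Finset.mem_univ _⟩
      rintro rfl
      exact G.loopless.irrefl _ (Finset.mem_filter.1 hi).2
    have h2 := Finset.card_le_card h1
    rw [Finset.card_erase_of_mem (Finset.mem_univ _), Finset.card_univ, Fintype.card_fin] at h2
    have h3 := hN 0
    omega
  have hD2 : 2 ≤ D := by
    -- the position 1 has the neighbours 0 and 2
    have h1 : (0 : Fin n) ∈ N (0 + 1) := Finset.mem_filter.2 ⟨Finset.mem_univ _, (hv 0).symm⟩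
    have h2 : (0 + 1 + 1 : Fin n) ∈ N (0 + 1) := Finset.mem_filter.2 ⟨Finset.mem_univ _, hv _⟩
    have h3 : (0 : Fin n) ≠ 0 + 1 + 1 := by
      have h4 : (0 + 1 + 1 : Fin n) = 0 + 2 := by
        rw [add_assoc]
        congr 1
        apply Fin.ext
        have h5 : (2 : Fin n) = Fin.ofNat n 2 := rfl
        rw [h5, Fin.val_add, Fin.val_one', Fin.val_ofNat, Nat.mod_eq_of_lt (a := 1) (by omega)]
      rw [h4]
      exact (fin_add_ne hn (0 : Fin n)).2.1.symm
    have h6 : ({0, 0 + 1 + 1} : Finset (Fin n)) ⊆ N (0 + 1) := by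
      intro x hx
      rw [Finset.mem_insert, Finset.mem_singleton] at hx
      rcases hx with rfl | rfl
      · exact h1
      · exact h2
    have h7 := Finset.card_le_card h6
    rw [Finset.card_pair h3] at h7
    exact h7.trans (hND _)
  obtain ⟨hd1800, _⟩ := large hD2 hdD hd
  choose T0 hTN0 hTsep0 hTcard0 using fun x => exists_sep (N x)
  have hT1 : ∀ x, ∃ T ⊆ T0 x, T.card = d / 3 := fun x =>
    Finset.exists_subset_card_eq (by have h1 := hTcard0 x; have h2 := hN x; omega)
  choose T hTT0 hTcard using hT1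
  have hTN : ∀ x, T x ⊆ N x := fun x => (hTT0 x).trans (hTN0 x)
  have hTsep : ∀ x, ∀ i ∈ T x, ∀ j ∈ T x, i ≠ j → Disjoint (trip i) (trip j) :=
    fun x i hi j hj => hTsep0 x i (hTT0 x hi) j (hTT0 x hj)
  have hab : (0 : Fin 6) ≠ 1 := by decide
  have hsymm : ∀ x y, y ∈ N x → x ∈ N y := fun x y h =>
    Finset.mem_filter.2 ⟨Finset.mem_univ _, (Finset.mem_filter.1 h).2.symm⟩
  obtain ⟨f, hfa, hfb⟩ := exists_label_local hn hab N hsymm D (by omega) hND T hTN (d / 3)
    (d / 160) (by omega) hTsep hTcard (by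
      have h1 := numbers hD2 hdD hd
      have h2 : (1 - (((6 : ℕ) : ℝ) - 2) ^ 2 / ((6 : ℕ) : ℝ) ^ 3 / 2) = (26 / 27 : ℝ) := by
        norm_num
      rw [h2]
      exact h1)
  obtain ⟨F, hF1, hF2, hF3, hF4⟩ := even_factor_of_many hn G v hv hab f T
    (fun x i hi => (Finset.mem_filter.1 (hTN x hi)).2) (d / 160) (by omega) hfa hfb
  refine ⟨Nat.card F.ConnectedComponent, ?_, hF3, ?_, F, hF1, hF2, rfl⟩
  · have h1 : 0 < Nat.card F.ConnectedComponent := by
      have : Nonempty F.ConnectedComponent := ⟨F.connectedComponentMk 0⟩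
      exact Nat.card_pos
    obtain ⟨m, hm⟩ := hF3
    omega
  · set K := Nat.card F.ConnectedComponent with hK
    have h1 : d ≤ 160 * (d / 160 + 1) := by omega
    have h2 : K = 0 ∨ 2 ≤ K := by
      obtain ⟨m, hm⟩ := hF3
      omega
    rcases h2 with h2 | h2
    · rw [h2]; omega
    · obtain ⟨K', hK'⟩ : ∃ K', K = K' + 2 := ⟨K - 2, by omega⟩
      have h3 : K' * (d / 160 + 1) ≤ 2 * n := by
        rw [hK', add_mul] at hF4
        omega
      have h4 : K' * d ≤ 320 * n := by
        calc K' * d ≤ K' * (160 * (d / 160 + 1)) := Nat.mul_le_mul_left _ h1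
          _ = 160 * (K' * (d / 160 + 1)) := by ring
          _ ≤ 160 * (2 * n) := Nat.mul_le_mul_left _ h3
          _ = 320 * n := by ring
      rw [hK', add_mul]
      omega

end Pool.Agent.Results.MP_59e2db_co.EvenNumber
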