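import Mathlib
import Pool.Agent.H10.SD.M6
import Pool.Agent.H10.SD.Neg2

/-!
For which graphs `H` does a constant minimum degree force a 2-factor with exactly two cycles in
Hamiltonian graphs without an induced copy of `H`? It does if `H` is an induced subgraph of a star
with one edge subdivided. It does not if `H` has an edge and is not a double star plus isolated
vertices.
-/

set_option linter.unusedSectionVars false

namespace Pool.Agent.Results.MP_59e2db_co.ForbiddenInduced

open SimpleGraph

/-- `G` has a 2-factor (a spanning subgraph in which every vertex has degree 2) with exactly two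
cycles, that is with exactly two connected components. -/
def HasTwoCycleTwoFactor {V : Type} (G : SimpleGraph V) : Prop :=
  ∃ F : SimpleGraph V, F ≤ G ∧ (∀ v, (F.neighborSet v).ncard = 2) ∧
    Nat.card F.ConnectedComponent = 2

/-- `D` is large enough for `H`: every Hamiltonian graph with no induced subgraph isomorphic to `H`
and with minimum degree at least `D` has a 2-factor with exactly two cycles. -/
def Forces {W : Type} (H : SimpleGraph W) (D : ℕ) : Prop :=
  ∀ (n : ℕ) (G : SimpleGraph (Fin n)), G.IsHamiltonian → IsEmpty (H ↪g G) →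
    (∀ v, D ≤ (G.neighborSet v).ncard) → HasTwoCycleTwoFactor G

/-- The star with centre `inr 0` and leaves `inl 0, ..., inl (p - 1), inr 1`, with a pendant vertex
`inr 2` attached to the leaf `inr 1`: the star `K_{1,p+1}` with one edge subdivided. -/
def subdividedStar (p : ℕ) : SimpleGraph (Fin p ⊕ Fin 3) :=
  SimpleGraph.fromRel (fun x y =>
    (x = Sum.inr 0 ∧ ∃ i, y = Sum.inl i) ∨ (x = Sum.inr 0 ∧ y = Sum.inr 1) ∨
      (x = Sum.inr 1 ∧ y = Sum.inr 2))

/-- `H` is a double star plus isolated vertices: the two adjacent vertices `u`, `v` meet every edge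
and have no common neighbour. -/
def IsDoubleStar {W : Type} (H : SimpleGraph W) : Prop :=
  ∃ u v : W, H.Adj u v ∧ (∀ x y, H.Adj x y → x = u ∨ x = v ∨ y = u ∨ y = v) ∧
    ∀ x, ¬ (H.Adj u x ∧ H.Adj v x)

theorem sdFree_of_isEmpty {V : Type} (p : ℕ) (G : SimpleGraph V)
    (h : IsEmpty (subdividedStar p ↪g G)) : Pool.Agent.H10.SD.SdFree p G := by
  intro a e b F hae heb hab hnab hF hF1 hF2
  apply h.false
  let g : F ≃ Fin p := F.equivFinOfCardEq hF
  let f : Fin p ⊕ Fin 3 → V := fun x => match x with
    | Sum.inl i => (g.symm i : V)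
    | Sum.inr 0 => a
    | Sum.inr 1 => e
    | Sum.inr 2 => b
  have hFm : ∀ i : Fin p, G.Adj a (g.symm i : V) ∧ (g.symm i : V) ≠ e ∧
      ¬ G.Adj e (g.symm i : V) ∧ ¬ G.Adj b (g.symm i : V) := fun i => hF1 _ (g.symm i).2
  have hFb : ∀ i : Fin p, (g.symm i : V) ≠ b := by
    intro i h1
    have h2 := (hFm i).1
    rw [h1] at h2
    exact hnab h2
  have hinj : Function.Injective f := by
    intro x y hxy
    match x, y, hxy with
    | Sum.inl i, Sum.inl j, h => 
      have h1 : (g.symm i : V) = (g.symm j : V) := h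
      rw [g.symm.injective (Subtype.ext h1)]
    | Sum.inl i, Sum.inr 0, h => exact absurd h.symm (G.ne_of_adj (hFm i).1)
    | Sum.inl i, Sum.inr 1, h => exact absurd h (hFm i).2.1
    | Sum.inl i, Sum.inr 2, h => exact absurd h (hFb i)
    | Sum.inr 0, Sum.inl i, h => exact absurd h (G.ne_of_adj (hFm i).1)
    | Sum.inr 1, Sum.inl i, h => exact absurd h.symm (hFm i).2.1
    | Sum.inr 2, Sum.inl i, h => exact absurd h.symm (hFb i)
    | Sum.inr 0, Sum.inr 0, _ => rfl
    | Sum.inr 1, Sum.inr 1, _ => rfl
    | Sum.inr 2, Sum.inr 2, _ => rfl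
    | Sum.inr 0, Sum.inr 1, h => exact absurd h (G.ne_of_adj hae)
    | Sum.inr 1, Sum.inr 0, h => exact absurd h.symm (G.ne_of_adj hae)
    | Sum.inr 0, Sum.inr 2, h => exact absurd h hab
    | Sum.inr 2, Sum.inr 0, h => exact absurd h.symm hab
    | Sum.inr 1, Sum.inr 2, h => exact absurd h (G.ne_of_adj heb)
    | Sum.inr 2, Sum.inr 1, h => exact absurd h.symm (G.ne_of_adj heb)
  refine ⟨⟨f, hinj⟩, ?_⟩
  intro x y
  show G.Adj (f x) (f y) ↔ (subdividedStar p).Adj x y
  have hi : ∀ i : Fin p, G.Adj a (g.symm i : V) := fun i => (hFm i).1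
  match x, y with
  | Sum.inl i, Sum.inl j =>
    refine iff_of_false (hF2 _ (g.symm i).2 _ (g.symm j).2) ?_
    simp [subdividedStar]
  | Sum.inl i, Sum.inr 0 =>
    refine iff_of_true (hi i).symm ?_
    simp [subdividedStar]
  | Sum.inl i, Sum.inr 1 =>
    refine iff_of_false (fun h => (hFm i).2.2.1 h.symm) ?_
    simp [subdividedStar]
  | Sum.inl i, Sum.inr 2 =>
    refine iff_of_false (fun h => (hFm i).2.2.2 h.symm) ?_
    simp [subdividedStar]
  | Sum.inr 0, Sum.inl i =>
    refine iff_of_true (hi i) ?_
    simp [subdividedStar]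
  | Sum.inr 1, Sum.inl i =>
    refine iff_of_false (hFm i).2.2.1 ?_
    simp [subdividedStar]
  | Sum.inr 2, Sum.inl i =>
    refine iff_of_false (hFm i).2.2.2 ?_
    simp [subdividedStar]
  | Sum.inr 0, Sum.inr 0 =>
    refine iff_of_false (G.loopless.irrefl _) ?_
    simp [subdividedStar]
  | Sum.inr 1, Sum.inr 1 =>
    refine iff_of_false (G.loopless.irrefl _) ?_
    simp [subdividedStar]
  | Sum.inr 2, Sum.inr 2 =>
    refine iff_of_false (G.loopless.irrefl _) ?_
    simp [subdividedStar]
  | Sum.inr 0, Sum.inr 1 =>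
    refine iff_of_true hae ?_
    simp [subdividedStar]
  | Sum.inr 1, Sum.inr 0 =>
    refine iff_of_true hae.symm ?_
    simp [subdividedStar]
  | Sum.inr 0, Sum.inr 2 =>
    refine iff_of_false hnab ?_
    simp [subdividedStar]
  | Sum.inr 2, Sum.inr 0 =>
    refine iff_of_false (fun h => hnab h.symm) ?_
    simp [subdividedStar]
  | Sum.inr 1, Sum.inr 2 =>
    refine iff_of_true heb ?_
    simp [subdividedStar]
  | Sum.inr 2, Sum.inr 1 =>
    refine iff_of_true heb.symm ?_
    simp [subdividedStar]

theorem sdFree_succ {V : Type} (p : ℕ) (G : SimpleGraph V)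
    (h : Pool.Agent.H10.SD.SdFree p G) : Pool.Agent.H10.SD.SdFree (p + 1) G := by
  intro a e b F h1 h2 h3 h4 h5 h6 h7
  have := h.lt a e b F h1 h2 h3 h4 h6 h7
  omega

theorem not_isHamiltonian_zero (G : SimpleGraph (Fin 0)) : ¬ G.IsHamiltonian := by
  intro h
  obtain ⟨a, _⟩ := h (by rw [Fintype.card_fin]; omega)
  exact a.elim0

/-- The constant for the star with `p + 1` leaves and one edge subdivided. -/
theorem forces_subdividedStar (p : ℕ) :
    Forces (subdividedStar p)
      (3 * (34 * (p + 1) + 67).choose 22 * (34 * (p + 1) + 55).choose 10) := by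
  intro n G hG hfree hdeg
  rcases Nat.eq_zero_or_pos n with rfl | hn
  · exact absurd hG (not_isHamiltonian_zero G)
  have : NeZero n := ⟨by omega⟩
  exact Pool.Agent.H10.SD.two_of_sdFree G hG (p + 1) (by omega)
    (sdFree_succ p G (sdFree_of_isEmpty p G hfree)) hdeg

theorem forces_of_embedding {W W' : Type} {H : SimpleGraph W} {H' : SimpleGraph W'} {D : ℕ}
    (f : H ↪g H') (h : Forces H' D) : Forces H D := by
  intro n G hG hfree hdeg
  apply h n G hG _ hdeg
  constructor
  intro g
  exact hfree.false (g.comp f)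

theorem doubleStar_of_forces {W : Type} (H : SimpleGraph W) (D : ℕ) (h : Forces H D) :
    (∀ x y, ¬ H.Adj x y) ∨ IsDoubleStar H := by
  apply Pool.Agent.H10.SD.doubleStar_of_split H
  · obtain ⟨n, G, h1, h2, h3, h4⟩ := Pool.Agent.H10.SD.split_example D
    apply h4
    by_contra hcon
    rw [not_nonempty_iff] at hcon
    exact h3 (h n G h1 hcon h2)
  · obtain ⟨n, G, h1, h2, h3, h4⟩ := Pool.Agent.H10.SD.triangleFree_example D
    apply h4
    by_contra hcon
    rw [not_nonempty_iff] at hcon
    exact h3 (h n G h1 hcon h2)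

/-- (1) If `H` is an induced subgraph of a star with one edge subdivided (for example a star or the
path with four vertices), then some constant minimum degree forces a 2-factor with exactly two
cycles in all Hamiltonian graphs without an induced copy of `H`. (2) If some constant does, then
`H` has no edge or is a double star plus isolated vertices. -/
theorem result :
    (∀ (p : ℕ) (W : Type) (H : SimpleGraph W), Nonempty (H ↪g subdividedStar p) →
      Forces H (3 * (34 * (p + 1) + 67).choose 22 * (34 * (p + 1) + 55).choose 10)) ∧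
    (∀ (W : Type) (H : SimpleGraph W), (∃ D, Forces H D) →
      (∀ x y, ¬ H.Adj x y) ∨ IsDoubleStar H) :=
  ⟨fun p _ _ ⟨f⟩ => forces_of_embedding f (forces_subdividedStar p),
    fun _ H ⟨D, hD⟩ => doubleStar_of_forces H D hD⟩

end Pool.Agent.Results.MP_59e2db_co.ForbiddenInduced
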