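import Mathlib
import Pool.Agent.H10.SF3.PH

/-!
Minimum degree forcing a 2-factor with exactly two cycles in Hamiltonian graphs: the upper bound
`66 sqrt (n log n) + 1`.
-/

namespace Pool.Agent.Results.MP_59e2db_co.SquareRootBound

open SimpleGraph

/-- `G` has a 2-factor (a spanning subgraph in which every vertex has degree 2) with exactly two
cycles, that is with exactly two connected components. -/
def HasTwoCycleTwoFactor {V : Type} (G : SimpleGraph V) : Prop :=
  ∃ F : SimpleGraph V, F ≤ G ∧ (∀ v, (F.neighborSet v).ncard = 2) ∧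
    Nat.card F.ConnectedComponent = 2

/-- Minimum degree at least `d` forces a 2-factor with exactly two cycles in every Hamiltonian
graph on `n` vertices. -/
def Forces (n d : ℕ) : Prop :=
  ∀ G : SimpleGraph (Fin n), G.IsHamiltonian → (∀ v, d ≤ (G.neighborSet v).ncard) →
    HasTwoCycleTwoFactor G

/-- `delta0 n` is the least `d` such that every Hamiltonian graph on `n` vertices with minimum
degree at least `d` has a 2-factor with exactly two cycles. -/
noncomputable def delta0 (n : ℕ) : ℕ := sInf {d | Forces n d}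

/-- `delta0 n ≤ 66 sqrt (n log n) + 1` for all `n ≥ 3`. -/
theorem result (n : ℕ) (hn : 3 ≤ n) :
    (delta0 n : ℝ) ≤ 66 * Real.sqrt (n * Real.log n) + 1 := by
  set x : ℝ := 66 * Real.sqrt (n * Real.log n) with hx
  have hx0 : 0 ≤ x := by positivity
  have h1 : Forces n ⌈x⌉₊ := fun G hG hdeg =>
    Pool.Agent.H10.SF3.two_of_large_degree hn (Nat.le_ceil x) G hG hdeg
  have h2 : delta0 n ≤ ⌈x⌉₊ := Nat.sInf_le h1
  have h3 : (⌈x⌉₊ : ℝ) < x + 1 := Nat.ceil_lt_add_one hx0
  have h4 : (delta0 n : ℝ) ≤ (⌈x⌉₊ : ℝ) := by exact_mod_cast h2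
  linarith

end Pool.Agent.Results.MP_59e2db_co.SquareRootBound
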