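import Mathlib
import Pool.Agent.H52.TwoFacMain

/-!
Minimum degree forcing a 2-factor with exactly two cycles in Hamiltonian graphs: the threshold
tends to infinity, at least logarithmically.
-/

set_option linter.unusedSectionVars false

namespace Pool.Agent.Results.MP_59e2db_co.UnboundedMinDegree

open SimpleGraph H52TF

/-- `G` has a 2-factor (a spanning subgraph in which every vertex has degree 2) with exactly two
cycles, that is with exactly two connected components. -/
def HasTwoCycleTwoFactor {V : Type} (G : SimpleGraph V) : Prop :=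
  ∃ F : SimpleGraph V, F ≤ G ∧ (∀ v, (F.neighborSet v).ncard = 2) ∧
    Nat.card F.ConnectedComponent = 2

/-- Minimum degree at least `d` forces a 2-factor with exactly two cycles in every Hamiltonian
graph on `n` vertices. -/
def Forces (n d : ℕ) : Prop :=
  ∀ G : SimpleGraph (Fin n), G.IsHamiltonian → (∀ v, d ≤ (G.neighborSet v).ncard) →
    HasTwoCycleTwoFactor G

/-- `delta0 n` is the least `d` such that every Hamiltonian graph on `n` vertices with minimum
degree at least `d` has a 2-factor with exactly two cycles. -/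
noncomputable def delta0 (n : ℕ) : ℕ := sInf {d | Forces n d}

theorem transfer {W : Type} [Fintype W] [DecidableEq W] {n : ℕ} (hn : Fintype.card W = n)
    (G : SimpleGraph W) (k : ℕ) (hH : G.IsHamiltonian)
    (hd : ∀ v, k ≤ (G.neighborSet v).ncard) (hno : ¬ HasTwoCycleTwoFactor G)
    (hn1 : n ≠ 1) :
    ∃ G' : SimpleGraph (Fin n), G'.IsHamiltonian ∧ (∀ v, k ≤ (G'.neighborSet v).ncard) ∧
      ¬ HasTwoCycleTwoFactor G' := by
  let e : W ≃ Fin n := Fintype.equivFinOfCardEq hn
  let G' : SimpleGraph (Fin n) := G.comap e.symm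
  have hadj : ∀ a b, G'.Adj a b ↔ G.Adj (e.symm a) (e.symm b) := fun a b => Iff.rfl
  refine ⟨G', ?_, ?_, ?_⟩
  · intro _
    obtain ⟨a, p, hp⟩ := hH (by rw [hn]; exact hn1)
    let f : G →g G' := ⟨e, by
      intro a b h
      rw [hadj, e.symm_apply_apply, e.symm_apply_apply]
      exact h⟩
    exact ⟨_, p.map f, hp.map e.bijective⟩
  · intro v
    have h1 := hd (e.symm v)
    have h2 : G'.neighborSet v = e '' (G.neighborSet (e.symm v)) := by
      ext x
      rw [SimpleGraph.mem_neighborSet, hadj]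
      constructor
      · intro h
        exact ⟨e.symm x, h, e.apply_symm_apply x⟩
      · rintro ⟨y, hy, rfl⟩
        rw [e.symm_apply_apply]
        exact hy
    rw [h2, Set.ncard_image_of_injective _ e.injective]
    exact h1
  · rintro ⟨F', hF', hdeg, hcc⟩
    apply hno
    refine ⟨F'.comap e, ?_, ?_, ?_⟩
    · intro a b h
      have h1 : G'.Adj (e a) (e b) := hF' h
      rw [hadj, e.symm_apply_apply, e.symm_apply_apply] at h1
      exact h1
    · intro v
      rw [← hdeg (e v)]
      have h2 : F'.neighborSet (e v) = e '' ((F'.comap e).neighborSet v) := by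
        ext x
        rw [SimpleGraph.mem_neighborSet]
        constructor
        · intro h
          refine ⟨e.symm x, ?_, e.apply_symm_apply x⟩
          rw [SimpleGraph.mem_neighborSet, SimpleGraph.comap_adj, e.apply_symm_apply]
          exact h
        · rintro ⟨y, hy, rfl⟩
          exact hy
      rw [h2, Set.ncard_image_of_injective _ e.injective]
    · rw [← hcc]
      exact Nat.card_congr (SimpleGraph.Iso.comap e F').connectedComponentEquiv

/-- From a gap structure to an example. -/
theorem example_of_gapStr {Y : Type} [Fintype Y] [DecidableEq Y] (S : GapStr (Option Y))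
    (hodd : Odd (Fintype.card (Option Y))) (hY : 1 ≤ Fintype.card Y) (k n : ℕ)
    (hk : ∀ v, k + 1 ≤ (S.P v).card) (hn : 2 * Fintype.card (Option Y) ≤ n) :
    ∃ G : SimpleGraph (Fin n), G.IsHamiltonian ∧ (∀ v, k ≤ (G.neighborSet v).ncard) ∧
      ¬ HasTwoCycleTwoFactor G := by
  obtain ⟨j, rfl⟩ : ∃ j, n = 2 * Fintype.card (Option Y) + j := ⟨_, (Nat.add_sub_of_le hn).symm⟩
  apply transfer (card_Wt j) (gr S j) k (gr_isHamiltonian S j hY) (gr_minDegree S j k hk)
  · rintro ⟨F, hF, hdeg, hcc⟩
    exact no_two S j hodd hY F hF hdeg hcc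
  · rw [Fintype.card_option]
    omega

/-- The examples. -/
theorem exists_example (k n : ℕ) (hn : 6 * 9 ^ k ≤ n) :
    ∃ G : SimpleGraph (Fin n), G.IsHamiltonian ∧ (∀ v, k ≤ (G.neighborSet v).ncard) ∧
      ¬ HasTwoCycleTwoFactor G := by
  rcases Nat.eq_zero_or_pos k with rfl | hk0
  · apply example_of_gapStr (baseGap.refine none)
    · decide
    · simp
    · intro v
      rw [zero_add, Nat.one_le_iff_ne_zero, Finset.card_ne_zero]
      exact ⟨v, GapStr.memP _ v⟩
    · simpa using hn
  · obtain ⟨Y, i1, i2, S, _, hodd, hk, hcard⟩ := exists_gapStr (k + 1) (by omega)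
    have h1 : 1 ≤ Fintype.card Y := by
      have h1 := hk none
      have h2 := Finset.card_le_univ (S.P none)
      rw [Fintype.card_option] at h2
      omega
    apply example_of_gapStr S hodd h1 k n hk
    have h2 : 3 ^ (2 * (k + 1) - 1) = 3 * 9 ^ k := by
      have : 2 * (k + 1) - 1 = 2 * k + 1 := by omega
      rw [this, pow_succ, pow_mul]
      norm_num [mul_comm]
    rw [h2] at hcard
    omega

theorem Forces.mono {n d d' : ℕ} (h : Forces n d) (hd : d ≤ d') : Forces n d' :=
  fun G hG hdeg => h G hG (fun v => hd.trans (hdeg v))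

theorem forces_self {n : ℕ} (hn : 1 ≤ n) : Forces n n := by
  intro G _ hdeg
  exfalso
  have h1 := hdeg ⟨0, hn⟩
  have h2 : (G.neighborSet ⟨0, hn⟩).ncard < (Set.univ : Set (Fin n)).ncard := by
    apply Set.ncard_lt_ncard
    · rw [Set.ssubset_univ_iff]
      intro h
      have h3 : (⟨0, hn⟩ : Fin n) ∈ G.neighborSet ⟨0, hn⟩ := by rw [h]; trivial
      exact G.loopless.irrefl _ h3
    · exact Set.toFinite _
  rw [Set.ncard_univ, Nat.card_eq_fintype_card, Fintype.card_fin] at h2
  omega

theorem lt_delta0 (k n : ℕ) (hn : 6 * 9 ^ k ≤ n) : k < delta0 n := by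
  by_contra hcon
  push Not at hcon
  have hn1 : 1 ≤ n := by
    have : 0 < 9 ^ k := by positivity
    omega
  have hmem : Forces n (delta0 n) := Nat.sInf_mem (s := {d | Forces n d}) ⟨n, forces_self hn1⟩
  obtain ⟨G, h1, h2, h3⟩ := exists_example k n hn
  exact h3 (hmem.mono hcon G h1 h2)

/-- For every `n ≥ 6` one has `delta0 n > log_9 (n / 6)`; in particular `delta0` is not bounded
by a constant. -/
theorem result :
    (∀ n : ℕ, 6 ≤ n → Real.logb 9 ((n : ℝ) / 6) < (delta0 n : ℝ)) ∧
    ¬ ∃ C : ℕ, ∀ n : ℕ, 6 ≤ n → delta0 n ≤ C := by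
  constructor
  · intro n hn
    have hn' : (1 : ℝ) ≤ (n : ℝ) / 6 := by
      rw [le_div_iff₀ (by norm_num)]
      exact_mod_cast (by omega : 1 * 6 ≤ n)
    have h0 : 0 ≤ Real.logb 9 ((n : ℝ) / 6) := Real.logb_nonneg (by norm_num) hn'
    set k := ⌊Real.logb 9 ((n : ℝ) / 6)⌋₊ with hk
    have h1 : (k : ℝ) ≤ Real.logb 9 ((n : ℝ) / 6) := Nat.floor_le h0
    have h2 : Real.logb 9 ((n : ℝ) / 6) < k + 1 := Nat.lt_floor_add_one _
    have h3 : (9 : ℝ) ^ k ≤ (n : ℝ) / 6 := by
      rw [Real.le_logb_iff_rpow_le (by norm_num) (by linarith)] at h1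
      rwa [Real.rpow_natCast] at h1
    have h4 : 6 * 9 ^ k ≤ n := by
      have : (6 : ℝ) * 9 ^ k ≤ n := by linarith
      exact_mod_cast this
    have h5 := lt_delta0 k n h4
    have h6 : ((k + 1 : ℕ) : ℝ) ≤ (delta0 n : ℝ) := by exact_mod_cast h5
    push_cast at h6
    linarith
  · rintro ⟨C, hC⟩
    have h1 := lt_delta0 C (6 * 9 ^ C) le_rfl
    have h2 := hC (6 * 9 ^ C) (by
      have : 0 < 9 ^ C := by positivity
      omega)
    omega

end Pool.Agent.Results.MP_59e2db_co.UnboundedMinDegree
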